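import Pool.Agent.ISO.StmtsR

/-!
# ISO, block R, row BAB
-/

set_option autoImplicit false

namespace Pool.Agent.ISO.R.H14

open Finset Pool.Agent.Helper6_Mono Pool.Agent.Helper32_OMP Pool.Agent.ISO

theorem bnd {α : Type} (g : α → ℕ) (L : List α) : ∃ W, ∀ x ∈ L, g x ≤ W := by
  induction L with
  | nil => exact ⟨0, by simp⟩
  | cons a L ih =>
    obtain ⟨W, hW⟩ := ih
    refine ⟨max (g a) W, fun x hx => ?_⟩
    rcases List.mem_cons.1 hx with rfl | hx
    · exact le_max_left _ _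
    · exact (hW x hx).trans (le_max_right _ _)

theorem const_aeval {σ : Type} {p : σ → ℂ} {φ : σ → MvPowerSeries σ ℂ}
    (hcc : ∀ l, MvPowerSeries.constantCoeff (φ l) = p l) (h : MvPolynomial σ ℂ) :
    MvPowerSeries.constantCoeff (MvPolynomial.aeval φ h) = MvPolynomial.eval p h := by
  have h1 : (MvPowerSeries.constantCoeff (σ := σ) (R := ℂ)).comp
      ((MvPolynomial.aeval φ : MvPolynomial σ ℂ →ₐ[ℂ] MvPowerSeries σ ℂ) :
        MvPolynomial σ ℂ →+* MvPowerSeries σ ℂ) = MvPolynomial.eval p := by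
    apply MvPolynomial.ringHom_ext
    · intro r
      simp [MvPowerSeries.algebraMap_apply]
    · intro i
      simp [hcc]
  exact RingHom.congr_fun h1 h

theorem bab (hCNJ : CnjStmt) (hOPA : OpaStmt) : BabStmt := by
  intro σ _ p f b hL
  obtain ⟨h, hh, P, hP⟩ := hL
  obtain ⟨W, hW⟩ := bnd (fun aw : Polynomial (MvPolynomial σ ℂ) × List σ => aw.2.length) P
  obtain ⟨d₀, hd₀⟩ :=
    bnd (fun aw : Polynomial (MvPolynomial σ ℂ) × List σ => aw.1.natDegree) P
  refine ⟨W, d₀ + W, fun φ e G hφ he haf => ?_⟩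
  obtain ⟨o1, o2, o3, -, -, o6⟩ := hOPA σ G
  choose Ψ hΨ1 hΨ2 using hCNJ σ p φ e f G hφ he haf
  set F : MvPolynomial σ ℂ →+* MvPowerSeries σ ℂ :=
    ((MvPolynomial.aeval φ : MvPolynomial σ ℂ →ₐ[ℂ] MvPowerSeries σ ℂ) :
      MvPolynomial σ ℂ →+* MvPowerSeries σ ℂ) with hF
  have hFa : ∀ x, MvPolynomial.aeval φ x = F x := fun x => rfl
  set U : MvPowerSeries σ ℂ := F h with hU
  have hU0 : MvPowerSeries.constantCoeff U ≠ 0 := by
    rw [hU, ← hFa, const_aeval hφ.cc]
    exact hh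
  have hUi : U * U⁻¹ = 1 := MvPowerSeries.mul_inv_cancel U hU0
  have hei : e * e⁻¹ = 1 := MvPowerSeries.mul_inv_cancel e he
  -- the terms
  let T : Polynomial (MvPolynomial σ ℂ) × List σ → ℕ → MvPowerSeries σ ℂ := fun aw n =>
    (Polynomial.C (U⁻¹ * e) * aw.1.map F).eval (n : MvPowerSeries σ ℂ) * Ψ aw.2 n
  have hT : ∀ aw ∈ P, OpB W (d₀ + W) G (T aw) := by
    intro aw haw
    have h1 : (Polynomial.C (U⁻¹ * e) * aw.1.map F).natDegree ≤ d₀ :=
      (Polynomial.natDegree_C_mul_le _ _).trans (Polynomial.natDegree_map_le.trans (hd₀ aw haw))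
    have h2 := o3 aw.2.length aw.2.length d₀ (Ψ aw.2) _ h1 (hΨ1 aw.2)
    have h3 := hW aw haw
    exact o6 aw.2.length W (aw.2.length + d₀) (d₀ + W) _ h3 (by
      have h4 : aw.2.length ≤ W := h3
      omega) h2
  have hsum : ∀ L : List (Polynomial (MvPolynomial σ ℂ) × List σ), (∀ aw ∈ L, aw ∈ P) →
      OpB W (d₀ + W) G (fun n => (L.map fun aw => T aw n).sum) := by
    intro L
    induction L with
    | nil =>
      intro _
      simpa using o1 W (d₀ + W)
    | cons aw L ih =>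
      intro hL
      have h1 := ih fun x hx => hL x (List.mem_cons_of_mem _ hx)
      have h2 := hT aw (hL aw List.mem_cons_self)
      simpa using o2 W (d₀ + W) _ _ h2 h1
  have hfin := hsum P fun _ h => h
  have hcong : (fun n : ℕ => MvPowerSeries.C (b.eval (n : ℂ)) * (G : MvPowerSeries σ ℂ) ^ n) =
      fun n => (P.map fun aw => T aw n).sum := by
    funext n
    have h1 := congrArg F (hP n)
    rw [map_mul, map_mul, map_pow, map_list_sum, List.map_map] at h1
    have h2 : F f = e * (G : MvPowerSeries σ ℂ) := haf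
    have h3 : F (MvPolynomial.C (b.eval (n : ℂ))) = MvPowerSeries.C (b.eval (n : ℂ)) := by
      rw [← hFa, MvPolynomial.aeval_C]
      simp [MvPowerSeries.algebraMap_apply]
    rw [h2, h3, mul_pow] at h1
    have h4 : ∀ aw : Polynomial (MvPolynomial σ ℂ) × List σ,
        (F ∘ fun aw : Polynomial (MvPolynomial σ ℂ) × List σ =>
          aw.1.eval (n : MvPolynomial σ ℂ) * dWord aw.2 (f ^ (n + 1))) aw =
        (U * e ^ n) * T aw n := by
      intro aw
      have h5 : F (aw.1.eval (n : MvPolynomial σ ℂ)) =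
          (aw.1.map F).eval (n : MvPowerSeries σ ℂ) := by
        rw [Polynomial.eval_map, ← Polynomial.eval₂_hom, map_natCast]
      have h6 : F (dWord aw.2 (f ^ (n + 1))) = e ^ (n + 1) * Ψ aw.2 n := hΨ2 aw.2 n
      simp only [Function.comp_apply, map_mul, h5, h6, T, Polynomial.eval_mul,
        Polynomial.eval_C]
      calc (aw.1.map F).eval (n : MvPowerSeries σ ℂ) * (e ^ (n + 1) * Ψ aw.2 n)
          = 1 * (aw.1.map F).eval (n : MvPowerSeries σ ℂ) * (e ^ (n + 1) * Ψ aw.2 n) := by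
            rw [one_mul]
        _ = (U * U⁻¹) * (aw.1.map F).eval (n : MvPowerSeries σ ℂ) *
            (e ^ (n + 1) * Ψ aw.2 n) := by rw [hUi]
        _ = U * e ^ n * (U⁻¹ * e * (aw.1.map F).eval (n : MvPowerSeries σ ℂ) * Ψ aw.2 n) := by
            rw [pow_succ]
            ring
    rw [List.map_congr_left (fun aw _ => h4 aw), List.sum_map_mul_left] at h1
    have h7 : (U * e ^ n) * (MvPowerSeries.C (b.eval (n : ℂ)) * (G : MvPowerSeries σ ℂ) ^ n) =
        (U * e ^ n) * (P.map fun aw => T aw n).sum := by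
      rw [← h1]
      ring
    have h8 : (U⁻¹ * (e⁻¹) ^ n) * (U * e ^ n) = 1 := by
      calc (U⁻¹ * (e⁻¹) ^ n) * (U * e ^ n) = (U * U⁻¹) * (e * e⁻¹) ^ n := by
            rw [mul_pow]
            ring
        _ = 1 := by rw [hUi, hei, one_pow, one_mul]
    calc MvPowerSeries.C (b.eval (n : ℂ)) * (G : MvPowerSeries σ ℂ) ^ n
        = ((U⁻¹ * (e⁻¹) ^ n) * (U * e ^ n)) *
            (MvPowerSeries.C (b.eval (n : ℂ)) * (G : MvPowerSeries σ ℂ) ^ n) := by
          rw [h8, one_mul]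
      _ = (U⁻¹ * (e⁻¹) ^ n) * ((U * e ^ n) *
            (MvPowerSeries.C (b.eval (n : ℂ)) * (G : MvPowerSeries σ ℂ) ^ n)) := by
          rw [mul_assoc]
      _ = (U⁻¹ * (e⁻¹) ^ n) * ((U * e ^ n) * (P.map fun aw => T aw n).sum) := by rw [h7]
      _ = ((U⁻¹ * (e⁻¹) ^ n) * (U * e ^ n)) * (P.map fun aw => T aw n).sum :=
          (mul_assoc _ _ _).symm
      _ = (P.map fun aw => T aw n).sum := by rw [h8, one_mul]
  rw [hcong]
  exact hfin

end Pool.Agent.ISO.R.H14
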