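import Pool.Agent.ISO.StmtsD

/-!
# ISO, row DIM: closure rules of the image
-/

set_option autoImplicit false

namespace Pool.Agent.ISO.H14

open MvPolynomial Pool.Agent.Helper32_OMP

theorem dim : DimStmt := by
  intro K σ ι _ _ f
  have hadd : ∀ v w : ι → MvPolynomial σ K, Im f v → Im f w → Im f fun j => v j + w j := by
    rintro v w ⟨a, b, h⟩ ⟨a', b', h'⟩
    refine ⟨fun j => a j + a' j, fun l => b l + b' l, fun j => ?_⟩
    show v j + w j = _
    rw [h j, h' j]
    simp only [add_mul, Finset.sum_add_distrib]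
    ring
  have hmul : ∀ (v : ι → MvPolynomial σ K) (c : MvPolynomial σ K), Im f v →
      Im f fun j => c * v j := by
    rintro v c ⟨a, b, h⟩
    refine ⟨fun j => c * a j, fun l => c * b l, fun j => ?_⟩
    show c * v j = _
    rw [h j]
    simp only [mul_add, Finset.mul_sum, mul_assoc]
  refine ⟨⟨fun _ => 0, fun _ => 0, fun j => by simp⟩, hadd, hmul, ?_, ?_⟩
  · intro r r' hr hr' v
    have h1 := hadd _ _ (hr v) (hr' v)
    simpa only [add_mul] using h1
  · intro c r hr v
    have h1 := hmul _ c (hr v)
    simpa only [mul_assoc] using h1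

end Pool.Agent.ISO.H14
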